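import Mathlib

/-!
# An infinite `∂`-graph with flat but not always free fundamental modules

The graph has boundary vertices `x_j`, `t_j`, interior vertices `v_j`, `s_j` (`j ∈ ℕ`) and the edges
`v_j x_j`, `v_j x_{j+1}`, `v_j t_j`, `s_j x_{j+1}`, `s_j t_j`. In the fundamental module one can solve
for `t_j` and then `x_j` is a combination of `x_{j+1}`, `v_j` and `s_j`; so the module is always a
direct limit of free modules, and it is flat. For suitable weights `± 1` over `ℤ` the relations are
`x_j = 2 x_{j+1}`, so that the module is the direct sum of `ℤ[1/2]` and a free module.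
-/

set_option autoImplicit false
set_option linter.all false

universe u

namespace Pool.Agent.Results.MP_2ddb17_co.FlatNotFree

open TensorProduct

/-- A `∂`-graph: a countable locally finite multigraph (`E` is the set of oriented edges, `src e`,
`tgt e` and `rev e` are the start vertex, the end vertex and the reversed edge of `e`) with a set of
interior vertices. -/
structure BGraph where
  /-- vertices -/
  V : Type
  /-- oriented edges -/
  E : Type
  /-- start vertex -/
  src : E → V
  /-- end vertex -/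
  tgt : E → V
  /-- reversed edge -/
  rev : E → E
  rev_rev : ∀ e, rev (rev e) = e
  rev_ne : ∀ e, rev e ≠ e
  src_rev : ∀ e, src (rev e) = tgt e
  /-- interior vertices -/
  interior : Set V
  countable : Countable V
  locallyFinite : ∀ x, {e | src e = x}.Finite

/-- An `Rˣ`-network on `G`: unit weights on the edges, invariant under reversal, and an arbitrary
function on the vertices. -/
structure Network (G : BGraph) (R : Type u) [CommRing R] where
  /-- weights of edges -/
  w : G.E → Rˣ
  w_rev : ∀ e, w (G.rev e) = w e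
  /-- the diagonal part -/
  d : G.V → R

variable {G : BGraph} {R : Type u} [CommRing R]

/-- The generalized Laplacian:
`L x = d(x) x + ∑_{e : src e = x} w(e) (x - tgt e)`. -/
noncomputable def Network.laplacian (N : Network G R) : (G.V →₀ R) →ₗ[R] (G.V →₀ R) :=
  Finsupp.linearCombination R fun x : G.V =>
    N.d x • Finsupp.single x (1 : R) + ∑ e ∈ (G.locallyFinite x).toFinset,
      (N.w e : R) • (Finsupp.single x (1 : R) - Finsupp.single (G.tgt e) (1 : R))

/-- The fundamental module `RV / L(RV°)`. -/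
abbrev Network.fundamental (N : Network G R) : Type u :=
  (G.V →₀ R) ⧸ (Finsupp.supported R R G.interior).map N.laplacian

/-! ### A flatness criterion -/

theorem flat_quot {F : Type u} [AddCommGroup F] [Module R F] [Module.Flat R F] (K : Submodule R F)
    (h : ∀ I : Ideal R, K ⊓ I • (⊤ : Submodule R F) ≤ I • K) : Module.Flat R (F ⧸ K) := by
  rw [Module.Flat.iff_rTensor_injective]
  intro I _
  rw [injective_iff_map_eq_zero]
  intro t ht
  obtain ⟨t', rfl⟩ := LinearMap.lTensor_surjective I (Submodule.mkQ_surjective K) t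
  have hmem : ∀ s : I ⊗[R] F, TensorProduct.lid R F (LinearMap.rTensor F I.subtype s) ∈
      I • (⊤ : Submodule R F) := by
    intro s
    induction s using TensorProduct.induction_on with
    | zero => rw [map_zero, map_zero]; exact Submodule.zero_mem _
    | tmul a f =>
      rw [LinearMap.rTensor_tmul, TensorProduct.lid_tmul]
      exact Submodule.smul_mem_smul a.2 trivial
    | add s t hs ht => rw [map_add, map_add]; exact Submodule.add_mem _ hs ht
  set f := TensorProduct.lid R F (LinearMap.rTensor F I.subtype t') with hf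
  have hfK : f ∈ K := by
    rw [← Submodule.Quotient.mk_eq_zero, ← Submodule.mkQ_apply]
    have h1 : K.mkQ f = TensorProduct.lid R (F ⧸ K)
        (LinearMap.rTensor (F ⧸ K) I.subtype (LinearMap.lTensor I K.mkQ t')) := by
      rw [hf]
      generalize t' = s
      induction s using TensorProduct.induction_on with
      | zero => simp
      | tmul a f => simp
      | add s t hs ht => simp only [map_add, hs, ht]
    rw [h1, ht, map_zero]
  have hfI := h I ⟨hfK, hmem t'⟩
  have hsurj : ∀ g ∈ I • K, ∃ s : I ⊗[R] K, TensorProduct.lid R F (LinearMap.rTensor F I.subtype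
      (LinearMap.lTensor I K.subtype s)) = g := by
    intro g hg
    induction hg using Submodule.smul_induction_on' with
    | smul a ha k hk => exact ⟨⟨a, ha⟩ ⊗ₜ ⟨k, hk⟩, by simp⟩
    | add x _ y _ hx hy =>
      obtain ⟨s, hs⟩ := hx
      obtain ⟨t, ht⟩ := hy
      exact ⟨s + t, by simp only [map_add, hs, ht]⟩
  obtain ⟨s, hs⟩ := hsurj f hfI
  have hinj : Function.Injective (LinearMap.rTensor F I.subtype) :=
    Module.Flat.rTensor_preserves_injective_linearMap _ I.injective_subtype
  have h2 : LinearMap.lTensor I K.subtype s = t' := by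
    apply hinj
    apply (TensorProduct.lid R F).injective
    rw [hs]
  rw [← h2, ← LinearMap.lTensor_comp_apply]
  have h3 : K.mkQ ∘ₗ K.subtype = 0 := by
    ext k
    simp
  rw [h3, LinearMap.lTensor_zero, LinearMap.zero_apply]

/-! ### The graph -/

/-- the vertices -/
inductive Vx : Type
  | x : ℕ → Vx
  | t : ℕ → Vx
  | v : ℕ → Vx
  | s : ℕ → Vx
  deriving DecidableEq

/-- the undirected edges `v_j x_j`, `v_j x_{j+1}`, `v_j t_j`, `s_j x_{j+1}`, `s_j t_j` -/
inductive Ed : Type
  | vx : ℕ → Ed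
  | vy : ℕ → Ed
  | vt : ℕ → Ed
  | sy : ℕ → Ed
  | st : ℕ → Ed
  deriving DecidableEq

/-- the interior end -/
def Ed.a : Ed → Vx
  | vx j => Vx.v j
  | vy j => Vx.v j
  | vt j => Vx.v j
  | sy j => Vx.s j
  | st j => Vx.s j

/-- the boundary end -/
def Ed.b : Ed → Vx
  | vx j => Vx.x j
  | vy j => Vx.x (j + 1)
  | vt j => Vx.t j
  | sy j => Vx.x (j + 1)
  | st j => Vx.t j

/-- start vertices -/
def sr : Ed × Bool → Vx
  | (e, false) => e.a
  | (e, true) => e.b

/-- end vertices -/
def tg : Ed × Bool → Vx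
  | (e, false) => e.b
  | (e, true) => e.a

theorem sr_set (y : Vx) : ({e : Ed × Bool | sr e = y} : Set (Ed × Bool)).Finite := by
  have key : ∀ j : ℕ, (({e : Ed × Bool | e.1 ∈ ({Ed.vx j, Ed.vy j, Ed.vt j, Ed.sy j, Ed.st j,
      Ed.vy (j - 1), Ed.sy (j - 1)} : Finset Ed)}) : Set (Ed × Bool)).Finite := by
    intro j
    have : ({e : Ed × Bool | e.1 ∈ ({Ed.vx j, Ed.vy j, Ed.vt j, Ed.sy j, Ed.st j,
      Ed.vy (j - 1), Ed.sy (j - 1)} : Finset Ed)} : Set (Ed × Bool)) =
      ((({Ed.vx j, Ed.vy j, Ed.vt j, Ed.sy j, Ed.st j,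
      Ed.vy (j - 1), Ed.sy (j - 1)} : Finset Ed) ×ˢ (Finset.univ : Finset Bool) :
        Finset (Ed × Bool)) : Set (Ed × Bool)) := by
      ext ⟨e, b⟩
      simp
    rw [this]
    exact Finset.finite_toSet _
  rcases y with j | j | j | j
  all_goals
    refine (key j).subset ?_
    rintro ⟨e, b⟩ he
    cases b <;> rcases e with i | i | i | i | i <;>
      simp only [sr, Ed.a, Ed.b, Set.mem_ofPred_eq, Vx.x.injEq, Vx.t.injEq, Vx.v.injEq,
        Vx.s.injEq, reduceCtorEq] at he <;> subst he <;> simp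

/-- the graph -/
abbrev GG : BGraph where
  V := Vx
  E := Ed × Bool
  src := sr
  tgt := tg
  rev e := (e.1, !e.2)
  rev_rev e := by simp
  rev_ne e := by
    intro h
    have := congrArg Prod.snd h
    simp at this
  src_rev e := by
    rcases e with ⟨e, b⟩
    cases b <;> rfl
  interior := {y | ∃ j, y = Vx.v j ∨ y = Vx.s j}
  countable := by
    have : Function.Injective (fun y : Vx => match y with
      | Vx.x j => ((0 : Fin 4), j)
      | Vx.t j => ((1 : Fin 4), j)
      | Vx.v j => ((2 : Fin 4), j)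
      | Vx.s j => ((3 : Fin 4), j)) := by
      intro a b h
      rcases a with a | a | a | a <;> rcases b with b | b | b | b <;> simp_all
    exact this.countable
  locallyFinite := sr_set

theorem infinite_V : Infinite GG.V :=
  Infinite.of_injective (fun j : ℕ => (Vx.x j : Vx)) fun a b h => Vx.x.inj h

theorem simple : Function.Injective fun e : GG.E => (GG.src e, GG.tgt e) := by
  rintro ⟨e, b⟩ ⟨f, c⟩ h
  have h' : (sr (e, b), tg (e, b)) = (sr (f, c), tg (f, c)) := h
  cases b <;> cases c <;> rcases e with e | e | e | e | e <;> rcases f with f | f | f | f | f <;>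
    simp [sr, tg, Ed.a, Ed.b] at h' ⊢ <;> first | assumption | omega

theorem no_loops (e : GG.E) : GG.src e ≠ GG.tgt e := by
  intro h
  rcases e with ⟨e, b⟩
  have h' : sr (e, b) = tg (e, b) := h
  cases b <;> rcases e with e | e | e | e | e <;> simp [sr, tg, Ed.a, Ed.b] at h'

theorem star_v (j : ℕ) : (GG.locallyFinite (Vx.v j)).toFinset =
    ({(Ed.vx j, false), (Ed.vy j, false), (Ed.vt j, false)} : Finset (Ed × Bool)) := by
  ext ⟨e, b⟩
  rw [Set.Finite.mem_toFinset]
  change sr (e, b) = Vx.v j ↔ _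
  cases b <;> rcases e with e | e | e | e | e <;> simp [sr, Ed.a, Ed.b]

theorem star_s (j : ℕ) : (GG.locallyFinite (Vx.s j)).toFinset =
    ({(Ed.sy j, false), (Ed.st j, false)} : Finset (Ed × Bool)) := by
  ext ⟨e, b⟩
  rw [Set.Finite.mem_toFinset]
  change sr (e, b) = Vx.s j ↔ _
  cases b <;> rcases e with e | e | e | e | e <;> simp [sr, Ed.a, Ed.b]

section lap

variable (N : Network GG R)

/-- basis vectors -/
noncomputable abbrev bv (y : Vx) : GG.V →₀ R := Finsupp.single (y : GG.V) (1 : R)

theorem lap_v (j : ℕ) : N.laplacian (bv (Vx.v j)) =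
    (N.d (Vx.v j) + N.w (Ed.vx j, false) + N.w (Ed.vy j, false) + N.w (Ed.vt j, false) : R) •
      bv (Vx.v j) - (N.w (Ed.vx j, false) : R) • bv (Vx.x j)
      - (N.w (Ed.vy j, false) : R) • bv (Vx.x (j + 1)) - (N.w (Ed.vt j, false) : R) • bv (Vx.t j) := by
  unfold Network.laplacian bv
  rw [Finsupp.linearCombination_single, one_smul, star_v, Finset.sum_insert (by simp),
    Finset.sum_insert (by simp), Finset.sum_singleton]
  change _ • _ + (_ • (_ - Finsupp.single (Vx.x j) 1) + (_ • (_ - Finsupp.single (Vx.x (j + 1)) 1) +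
    _ • (_ - Finsupp.single (Vx.t j) 1))) = _
  module

theorem lap_s (j : ℕ) : N.laplacian (bv (Vx.s j)) =
    (N.d (Vx.s j) + N.w (Ed.sy j, false) + N.w (Ed.st j, false) : R) •
      bv (Vx.s j) - (N.w (Ed.sy j, false) : R) • bv (Vx.x (j + 1))
      - (N.w (Ed.st j, false) : R) • bv (Vx.t j) := by
  unfold Network.laplacian bv
  rw [Finsupp.linearCombination_single, one_smul, star_s, Finset.sum_insert (by simp),
    Finset.sum_singleton]
  change _ • _ + (_ • (_ - Finsupp.single (Vx.x (j + 1)) 1) +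
    _ • (_ - Finsupp.single (Vx.t j) 1)) = _
  module

/-- Two functionals which agree on the interior basis vectors agree on interior vectors. -/
theorem eq_of_basis (φ ψ : (GG.V →₀ R) →ₗ[R] R) (hv : ∀ j, φ (bv (Vx.v j)) = ψ (bv (Vx.v j)))
    (hs : ∀ j, φ (bv (Vx.s j)) = ψ (bv (Vx.s j))) (g : GG.V →₀ R)
    (hg : g ∈ Finsupp.supported R R GG.interior) : φ g = ψ g := by
  rw [Finsupp.supported_eq_span_single] at hg
  induction hg using Submodule.span_induction with
  | mem y hy =>
    obtain ⟨z, ⟨j, rfl | rfl⟩, rfl⟩ := hy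
    · exact hv j
    · exact hs j
  | zero => rw [map_zero, map_zero]
  | add a b _ _ ha hb => rw [map_add, map_add, ha, hb]
  | smul r a _ ha => rw [map_smul, map_smul, ha]

/-- the coordinate functional -/
noncomputable abbrev co (y : Vx) : (GG.V →₀ R) →ₗ[R] R := Finsupp.lapply (y : GG.V)

theorem co_bv (y z : Vx) : co (R := R) y (bv z) = if z = y then 1 else 0 := by
  rw [Finsupp.lapply_apply, Finsupp.single_apply]

theorem coord_x_zero (g : GG.V →₀ R) (hg : g ∈ Finsupp.supported R R GG.interior) :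
    N.laplacian g (Vx.x 0) = - (N.w (Ed.vx 0, false) : R) * g (Vx.v 0) := by
  refine eq_of_basis (co (Vx.x 0) ∘ₗ N.laplacian) (- (N.w (Ed.vx 0, false) : R) • co (Vx.v 0))
    ?_ ?_ g hg
  · intro j
    rw [LinearMap.comp_apply, lap_v]
    simp only [map_sub, map_smul, co_bv, LinearMap.smul_apply, smul_eq_mul]
    rcases j with _ | j <;> simp
  · intro j
    rw [LinearMap.comp_apply, lap_s]
    simp only [map_sub, map_smul, co_bv, LinearMap.smul_apply, smul_eq_mul]
    simp

theorem coord_x_succ (j : ℕ) (g : GG.V →₀ R) (hg : g ∈ Finsupp.supported R R GG.interior) :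
    N.laplacian g (Vx.x (j + 1)) = - (N.w (Ed.vx (j + 1), false) : R) * g (Vx.v (j + 1)) -
      (N.w (Ed.vy j, false) : R) * g (Vx.v j) - (N.w (Ed.sy j, false) : R) * g (Vx.s j) := by
  refine eq_of_basis (co (Vx.x (j + 1)) ∘ₗ N.laplacian)
    (- (N.w (Ed.vx (j + 1), false) : R) • co (Vx.v (j + 1)) - (N.w (Ed.vy j, false) : R) •
      co (Vx.v j) - (N.w (Ed.sy j, false) : R) • co (Vx.s j)) ?_ ?_ g hg
  · intro i
    rw [LinearMap.comp_apply, lap_v]
    simp only [map_sub, map_smul, co_bv, LinearMap.smul_apply, LinearMap.sub_apply, smul_eq_mul,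
      reduceCtorEq, if_false, mul_zero, sub_zero, zero_sub, Vx.x.injEq, Vx.v.injEq, add_left_inj]
    by_cases h1 : i = j + 1
    · subst h1
      simp
    · by_cases h2 : i = j
      · subst h2
        simp
      · simp [h1, h2]
  · intro i
    rw [LinearMap.comp_apply, lap_s]
    simp only [map_sub, map_smul, co_bv, LinearMap.smul_apply, LinearMap.sub_apply, smul_eq_mul,
      reduceCtorEq, if_false, mul_zero, sub_zero, zero_sub, Vx.x.injEq, Vx.s.injEq, add_left_inj]
    by_cases h2 : i = j
    · subst h2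
      simp
    · simp [h2]

theorem coord_t (j : ℕ) (g : GG.V →₀ R) (hg : g ∈ Finsupp.supported R R GG.interior) :
    N.laplacian g (Vx.t j) = - (N.w (Ed.vt j, false) : R) * g (Vx.v j) -
      (N.w (Ed.st j, false) : R) * g (Vx.s j) := by
  refine eq_of_basis (co (Vx.t j) ∘ₗ N.laplacian)
    (- (N.w (Ed.vt j, false) : R) • co (Vx.v j) - (N.w (Ed.st j, false) : R) • co (Vx.s j))
    ?_ ?_ g hg
  · intro i
    rw [LinearMap.comp_apply, lap_v]
    simp only [map_sub, map_smul, co_bv, LinearMap.smul_apply, LinearMap.sub_apply, smul_eq_mul,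
      reduceCtorEq, if_false, mul_zero, sub_zero, zero_sub, Vx.t.injEq, Vx.v.injEq]
    by_cases h2 : i = j
    · subst h2
      simp
    · simp [h2]
  · intro i
    rw [LinearMap.comp_apply, lap_s]
    simp only [map_sub, map_smul, co_bv, LinearMap.smul_apply, LinearMap.sub_apply, smul_eq_mul,
      reduceCtorEq, if_false, mul_zero, sub_zero, zero_sub, Vx.t.injEq, Vx.s.injEq]
    by_cases h2 : i = j
    · subst h2
      simp
    · simp [h2]

/-- The fundamental modules are flat. -/
theorem flat : Module.Flat R N.fundamental := by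
  refine flat_quot _ fun I => ?_
  rintro f ⟨⟨g, hg, rfl⟩, hI⟩
  have hco : ∀ y : Vx, N.laplacian g y ∈ I := by
    have key : ∀ h ∈ I • (⊤ : Submodule R (GG.V →₀ R)), ∀ y : Vx, h y ∈ I := by
      intro h hh y
      induction hh using Submodule.smul_induction_on' with
      | smul a ha k _ => exact Ideal.mul_mem_right _ _ ha
      | add x _ y _ hx hy => exact Ideal.add_mem _ hx hy
    exact key _ hI
  have hunit : ∀ (e : GG.E) (r : R), (N.w e : R) * r ∈ I → r ∈ I := by
    intro e r hr
    exact (Ideal.unit_mul_mem_iff_mem I (N.w e).isUnit).1 hr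
  have hvs : ∀ j : ℕ, g (Vx.v j) ∈ I ∧ g (Vx.s j) ∈ I := by
    intro j
    have hst : ∀ j, g (Vx.v j) ∈ I → g (Vx.s j) ∈ I := by
      intro j hj
      have h1 := hco (Vx.t j)
      rw [coord_t N j g hg] at h1
      apply hunit (Ed.st j, false)
      have h2 : (N.w (Ed.st j, false) : R) * g (Vx.s j) =
          (N.w (Ed.vt j, false) : R) * (- g (Vx.v j)) -
            (- (N.w (Ed.vt j, false) : R) * g (Vx.v j) -
              (N.w (Ed.st j, false) : R) * g (Vx.s j)) := by ring
      rw [h2]
      exact Ideal.sub_mem _ (Ideal.mul_mem_left _ _ (neg_mem hj)) h1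
    induction j with
    | zero =>
      have h1 := hco (Vx.x 0)
      rw [coord_x_zero N g hg] at h1
      have h2 : g (Vx.v 0) ∈ I := by
        apply hunit (Ed.vx 0, false)
        rw [neg_mul] at h1
        exact (neg_mem_iff.1 h1)
      exact ⟨h2, hst 0 h2⟩
    | succ j ih =>
      have h1 := hco (Vx.x (j + 1))
      rw [coord_x_succ N j g hg] at h1
      have h2 : g (Vx.v (j + 1)) ∈ I := by
        apply hunit (Ed.vx (j + 1), false)
        have h3 : (N.w (Ed.vx (j + 1), false) : R) * g (Vx.v (j + 1)) =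
            - (N.w (Ed.vy j, false) : R) * g (Vx.v j) - (N.w (Ed.sy j, false) : R) * g (Vx.s j) -
            (- (N.w (Ed.vx (j + 1), false) : R) * g (Vx.v (j + 1)) -
              (N.w (Ed.vy j, false) : R) * g (Vx.v j) -
              (N.w (Ed.sy j, false) : R) * g (Vx.s j)) := by ring
        rw [h3]
        exact Ideal.sub_mem _ (Ideal.sub_mem _ (Ideal.mul_mem_left _ _ ih.1)
          (Ideal.mul_mem_left _ _ ih.2)) h1
      exact ⟨h2, hst _ h2⟩
  rw [← Finsupp.sum_single g, Finsupp.sum, map_sum]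
  refine Submodule.sum_mem _ fun y hy => ?_
  have hyint : y ∈ GG.interior := (Finsupp.mem_supported R g).1 hg hy
  have hgy : g y ∈ I := by
    obtain ⟨j, rfl | rfl⟩ := hyint
    · exact (hvs j).1
    · exact (hvs j).2
  have h4 : Finsupp.single y (g y) = g y • Finsupp.single y (1 : R) := by
    rw [Finsupp.smul_single, smul_eq_mul, mul_one]
  rw [h4, map_smul]
  exact Submodule.smul_mem_smul hgy (Submodule.mem_map_of_mem (Finsupp.single_mem_supported R 1 hyint))

end lap

/-! ### The network over `ℤ` -/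

/-- the weights -/
def wt : Ed → ℤˣ
  | Ed.vy _ => -1
  | _ => 1

/-- the diagonal part -/
def dg : Vx → ℤ
  | Vx.v _ => -1
  | Vx.s _ => -2
  | _ => 0

/-- the network -/
def NN : Network GG ℤ where
  w e := wt e.1
  w_rev _ := rfl
  d := dg

theorem NN_v (j : ℕ) : NN.laplacian (bv (Vx.v j)) =
    bv (Vx.x (j + 1)) - bv (Vx.x j) - bv (Vx.t j) := by
  rw [lap_v]
  have h1 : (NN.d (Vx.v j) + NN.w (Ed.vx j, false) + NN.w (Ed.vy j, false) +
      NN.w (Ed.vt j, false) : ℤ) = 0 := by
    change (-1 + 1 + -1 + 1 : ℤ) = 0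
    norm_num
  have h2 : (NN.w (Ed.vx j, false) : ℤ) = 1 := rfl
  have h3 : (NN.w (Ed.vy j, false) : ℤ) = -1 := rfl
  have h4 : (NN.w (Ed.vt j, false) : ℤ) = 1 := rfl
  rw [h1, h2, h3, h4]
  module

theorem NN_s (j : ℕ) : NN.laplacian (bv (Vx.s j)) =
    - bv (Vx.x (j + 1)) - bv (Vx.t j) := by
  rw [lap_s]
  have h1 : (NN.d (Vx.s j) + NN.w (Ed.sy j, false) + NN.w (Ed.st j, false) : ℤ) = 0 := by
    change (-2 + 1 + 1 : ℤ) = 0
    norm_num
  have h2 : (NN.w (Ed.sy j, false) : ℤ) = 1 := rfl
  have h3 : (NN.w (Ed.st j, false) : ℤ) = 1 := rfl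
  rw [h1, h2, h3]
  module

/-- the submodule of relations -/
noncomputable abbrev KK : Submodule ℤ (GG.V →₀ ℤ) :=
  (Finsupp.supported ℤ ℤ GG.interior).map NN.laplacian

theorem mem_v (j : ℕ) : (bv (Vx.x (j + 1)) - bv (Vx.x j) - bv (Vx.t j) : GG.V →₀ ℤ) ∈ KK := by
  rw [← NN_v]
  exact Submodule.mem_map_of_mem (Finsupp.single_mem_supported ℤ 1 ⟨j, Or.inl rfl⟩)

theorem mem_s (j : ℕ) : (- bv (Vx.x (j + 1)) - bv (Vx.t j) : GG.V →₀ ℤ) ∈ KK := by
  rw [← NN_s]
  exact Submodule.mem_map_of_mem (Finsupp.single_mem_supported ℤ 1 ⟨j, Or.inr rfl⟩)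

/-- the class of `x_j` -/
noncomputable def xi (j : ℕ) : NN.fundamental := KK.mkQ (bv (Vx.x j))

theorem xi_succ (j : ℕ) : xi j = 2 • xi (j + 1) := by
  unfold xi
  rw [← map_nsmul, ← sub_eq_zero, ← map_sub, Submodule.mkQ_apply, Submodule.Quotient.mk_eq_zero]
  have h1 := KK.sub_mem (mem_s j) (mem_v j)
  have h2 : (- bv (Vx.x (j + 1)) - bv (Vx.t j) : GG.V →₀ ℤ) -
      (bv (Vx.x (j + 1)) - bv (Vx.x j) - bv (Vx.t j)) = bv (Vx.x j) - 2 • bv (Vx.x (j + 1)) := by
    module
  rwa [h2] at h1

theorem xi_zero (n : ℕ) : xi 0 = 2 ^ n • xi n := by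
  induction n with
  | zero => rw [pow_zero, one_smul]
  | succ n ih => rw [ih, xi_succ n, smul_smul, pow_succ]

/-- values in `ℚ` -/
noncomputable def val : Vx → ℚ
  | Vx.x j => (1 / 2) ^ j
  | Vx.t j => - (1 / 2) ^ (j + 1)
  | Vx.v _ => 0
  | Vx.s _ => 0

/-- the map to `ℚ` -/
noncomputable def ev : (GG.V →₀ ℤ) →ₗ[ℤ] ℚ := Finsupp.linearCombination ℤ (val : GG.V → ℚ)

theorem ev_bv (y : Vx) : ev (bv y) = val y := by
  unfold ev bv
  rw [Finsupp.linearCombination_single, one_smul]

theorem ev_KK (f : GG.V →₀ ℤ) (hf : f ∈ KK) : ev f = 0 := by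
  obtain ⟨g, hg, rfl⟩ := hf
  have hg' : g ∈ Finsupp.supported ℤ ℤ GG.interior := hg
  rw [Finsupp.supported_eq_span_single] at hg'
  induction hg' using Submodule.span_induction with
  | mem y hy =>
    obtain ⟨z, ⟨j, rfl | rfl⟩, rfl⟩ := hy
    · change ev (NN.laplacian (bv (Vx.v j))) = 0
      rw [NN_v, map_sub, map_sub, ev_bv, ev_bv, ev_bv]
      simp only [val]
      ring
    · change ev (NN.laplacian (bv (Vx.s j))) = 0
      rw [NN_s, map_sub, map_neg, ev_bv, ev_bv]
      simp only [val]
      ring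
  | zero => rw [map_zero, map_zero]
  | add a b ha' hb' ha hb =>
    rw [map_add, map_add]
    rw [← Finsupp.supported_eq_span_single] at ha' hb'
    rw [ha ha', hb hb', add_zero]
  | smul r a ha' ha =>
    rw [map_smul, map_smul]
    rw [← Finsupp.supported_eq_span_single] at ha'
    rw [ha ha', smul_zero]

theorem xi_ne : xi 0 ≠ 0 := by
  intro h
  have h1 : (bv (Vx.x 0) : GG.V →₀ ℤ) ∈ KK := (Submodule.Quotient.mk_eq_zero _).1 h
  have h2 := ev_KK _ h1
  rw [ev_bv] at h2
  simp [val] at h2

theorem not_free : ¬ Module.Free ℤ NN.fundamental := by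
  intro hfree
  apply xi_ne
  let b := Module.Free.chooseBasis ℤ NN.fundamental
  apply b.repr.injective
  rw [map_zero]
  ext i
  rw [Finsupp.zero_apply]
  by_contra hne
  have hdvd : ∀ n : ℕ, (2 : ℤ) ^ n ∣ b.repr (xi 0) i := by
    intro n
    rw [xi_zero n, map_nsmul, Finsupp.smul_apply, nsmul_eq_mul]
    push_cast
    exact Dvd.intro _ rfl
  obtain ⟨n, hn⟩ := pow_unbounded_of_one_lt |b.repr (xi 0) i| (by norm_num : (1 : ℤ) < 2)
  have h1 := Int.le_of_dvd (abs_pos.2 hne) ((dvd_abs _ _).2 (hdvd n))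
  omega

/-- There is an infinite `∂`-graph `G` (without loops and multiple edges) such that the fundamental
module is flat for every commutative ring `R` and every `Rˣ`-network on `G`, while it is not free
for some `ℤˣ`-network on `G`. -/
theorem result : ∃ G : BGraph, Infinite G.V ∧
    (Function.Injective fun e : G.E => (G.src e, G.tgt e)) ∧ (∀ e : G.E, G.src e ≠ G.tgt e) ∧
    (∀ (R : Type u) [CommRing R] (N : Network G R), Module.Flat R N.fundamental) ∧
    ∃ N : Network G ℤ, ¬ Module.Free ℤ N.fundamental :=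
  ⟨GG, infinite_V, simple, no_loops, fun _ _ N => flat N, NN, not_free⟩

end Pool.Agent.Results.MP_2ddb17_co.FlatNotFree
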